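import Mathlib
import Pool.Agent.H14.CubePack

set_option autoImplicit false

namespace Pool.Agent.Results.MP_05d054_an.Sum

open Pool.Agent.H14.CubePack in
theorem result (n : ℕ) (hn : 1 ≤ n) (f : ℝ → E n)
    (hf : ∀ t ∈ Set.Ioo (0 : ℝ) 1, ∀ i, f t i ∈ Set.Icc (0 : ℝ) 1) :
    ((2 * n - 1 : ℕ) : ENNReal) ≤ dimH (G f) + boxDim (G f) := by
  obtain ⟨m, rfl⟩ : ∃ m, n = m + 1 := ⟨n - 1, by omega⟩
  exact main m f hf

end Pool.Agent.Results.MP_05d054_an.Sum
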